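import Pool.Agent.W23.DC.Defs
import Pool.Agent.H442R2.BX.Bb

/-! DC project, task BBF (helper324): one box, all classes modulo `q`. -/

namespace Pool.Agent.W324.DC

open Finset
open Pool.Agent.H442R2
open Pool.Agent.H442R2.KF
open Pool.Agent.W23.DC
open Pool.Agent.H442R2.BX.TaskBB

theorem cl_ne (q : ℕ) (c : ℕ → ℝ) (r d : ℕ) (hd : cl q c r d ≠ 0) : c d ≠ 0 := by
  unfold cl at hd
  intro h
  apply hd
  rw [h]
  simp

theorem BBF (hBCF : St_BCF) : St_BBF := by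
  intro θ δ hθ1 hθ2 hδ
  obtain ⟨η, C, hη, hC, h⟩ := hBCF θ δ hθ1 hθ2 hδ
  refine ⟨η, C, hη, hC, ?_⟩
  intro N q i k hN hq hodd hsq hi hk a a' σ ha ha' hne hσ c c' hc hc' hf hf'
  have key : T N q i k a a' σ c c' =
      ∑ r ∈ range q, ∑ r' ∈ range q, T N q i k a a' σ (cl q c r) (cl q c' r') := by
    conv_lhs => rw [← cl_sum q hq c, ← cl_sum q hq c']
    rw [T_left]
    refine Finset.sum_congr rfl fun r _ => ?_
    rw [T_right]
  have hb : ∀ r r', ‖T N q i k a a' σ (cl q c r) (cl q c' r')‖ ≤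
      C * (2 : ℝ) ^ (max i k - min i k) * (N : ℝ) ^ (1 - η) := fun r r' =>
    h N q i k hN hq hodd hsq hi hk a a' σ ha ha' hne hσ (cl q c r) (cl q c' r') (cl_cof hc r)
      (cl_cof hc' r') (fun d hd => hf d (cl_ne q c r d hd)) (fun d hd => hf' d (cl_ne q c' r' d hd))
      r r' (fun d hd => cl_mod q c r d hd) (fun d hd => cl_mod q c' r' d hd)
  show ‖T N q i k a a' σ c c'‖ ≤ _
  rw [key]
  calc ‖∑ r ∈ range q, ∑ r' ∈ range q, T N q i k a a' σ (cl q c r) (cl q c' r')‖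
      ≤ ∑ r ∈ range q, ∑ r' ∈ range q, C * (2 : ℝ) ^ (max i k - min i k) * (N : ℝ) ^ (1 - η) :=
        norm_sum_le_of_le _ fun r _ => norm_sum_le_of_le _ fun r' _ => hb r r'
    _ = C * (q : ℝ) ^ 2 * (2 : ℝ) ^ (max i k - min i k) * (N : ℝ) ^ (1 - η) := by
        rw [Finset.sum_const, Finset.sum_const, Finset.card_range, nsmul_eq_mul, nsmul_eq_mul]
        ring

end Pool.Agent.W324.DC
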