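import Pool.Agent.W23.DC.Defs
import Pool.Agent.H442R2.BX.Bc
import Pool.Agent.H442R2.FX.Ef

/-! DC project, task BCF (helper324): one box, fixed classes modulo `q`, factorable moduli. -/

namespace Pool.Agent.W324.DC

open Finset
open Pool.Agent.H442R2
open Pool.Agent.H442R2.KF
open Pool.Agent.H442R2.BX
open Pool.Agent.W23.DC

namespace TaskBCF

/-- coefficients of the decomposition -/
noncomputable def gam (M M2 : ℕ) (b : ℕ → ℂ) (s1 : ℕ → ℕ) (r s : ℕ) : ℂ :=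
  if r * s ∈ Ioc M M2 ∧ s1 (r * s) = s then b (r * s) else 0

theorem decomp (M M2 I : ℕ) (hI : M2 < 2 ^ I) (b : ℕ → ℂ) (s1 : ℕ → ℕ)
    (h : ∀ m ∈ Ioc M M2, b m ≠ 0 → s1 m ∣ m) (G : ℕ → ℂ) :
    ∑ m ∈ Ioc M M2, b m * G m =
      ∑ i ∈ range I, ∑ s ∈ Ico (2 ^ i) (2 * 2 ^ i),
        ∑ r ∈ Icc 1 M2, gam M M2 b s1 r s * G (r * s) := by
  rw [FX.TaskEF.sum_dyadic (fun s => ∑ r ∈ Icc 1 M2, gam M M2 b s1 r s * G (r * s)),
    ← Finset.sum_product' (f := fun s r => gam M M2 b s1 r s * G (r * s))]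
  have hd : ∀ m ∈ Ioc M M2, b m * G m ≠ 0 → s1 m ∣ m ∧ 0 < s1 m ∧
      m / s1 m * s1 m = m ∧ 1 ≤ m / s1 m ∧ m / s1 m ≤ M2 ∧ s1 m ≤ M2 := by
    intro m hm hb
    have hb' : b m ≠ 0 := left_ne_zero_of_mul hb
    have hdv := h m hm hb'
    have hm' := Finset.mem_Ioc.1 hm
    have hm0 : 0 < m := by omega
    have hs0 : 0 < s1 m := Nat.pos_of_dvd_of_pos hdv hm0
    refine ⟨hdv, hs0, Nat.div_mul_cancel hdv, ?_, ?_, ?_⟩
    · exact (Nat.one_le_div_iff hs0).2 (Nat.le_of_dvd hm0 hdv)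
    · exact (Nat.div_le_self _ _).trans hm'.2
    · exact (Nat.le_of_dvd hm0 hdv).trans hm'.2
  refine Finset.sum_bij_ne_zero (fun m _ _ => (s1 m, m / s1 m)) ?_ ?_ ?_ ?_
  · intro m hm hb
    obtain ⟨h1, h2, h3, h4, h5, h6⟩ := hd m hm hb
    rw [Finset.mem_product, Finset.mem_Ico, Finset.mem_Icc]
    exact ⟨⟨h2, lt_of_le_of_lt h6 hI⟩, h4, h5⟩
  · intro m hm hb m' hm' hb' heq
    obtain ⟨h1, h2, h3, h4, h5, h6⟩ := hd m hm hb
    obtain ⟨h1', h2', h3', h4', h5', h6'⟩ := hd m' hm' hb'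
    simp only [Prod.mk.injEq] at heq
    rw [← h3, ← h3', heq.2, heq.1]
  · rintro ⟨s, r⟩ hsr hne
    rw [Finset.mem_product, Finset.mem_Ico, Finset.mem_Icc] at hsr
    simp only at hsr hne
    have hg : gam M M2 b s1 r s ≠ 0 := left_ne_zero_of_mul hne
    have hG : G (r * s) ≠ 0 := right_ne_zero_of_mul hne
    unfold gam at hg
    split_ifs at hg with hc
    · refine ⟨r * s, hc.1, mul_ne_zero hg hG, ?_⟩
      rw [Prod.mk.injEq]
      refine ⟨hc.2, ?_⟩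
      rw [hc.2]
      exact Nat.mul_div_cancel _ hsr.1.1
    · exact absurd rfl hg
  · intro m hm hb
    obtain ⟨h1, h2, h3, h4, h5, h6⟩ := hd m hm hb
    simp only
    rw [h3]
    unfold gam
    rw [h3, if_pos ⟨hm, rfl⟩]

theorem gam_norm (M M2 : ℕ) (b : ℕ → ℂ) (s1 : ℕ → ℕ) (hb : ∀ m, ‖b m‖ ≤ 1) (r s : ℕ) :
    ‖gam M M2 b s1 r s‖ ≤ 1 := by
  unfold gam
  split_ifs
  · exact hb _
  · simp

theorem gam_ne (M M2 : ℕ) (b : ℕ → ℂ) (s1 : ℕ → ℕ) (r s : ℕ) (h : gam M M2 b s1 r s ≠ 0) :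
    r * s ∈ Ioc M M2 ∧ s1 (r * s) = s ∧ b (r * s) ≠ 0 := by
  unfold gam at h
  split_ifs at h with hc
  · exact ⟨hc.1, hc.2, h⟩
  · exact absurd rfl h

/-- the sum over one variable with factorable support -/
theorem core {θ δ C0 K : ℝ} (hθ1 : 1 / 2 ≤ θ) (hθ2 : θ < 5 / 9) (hδ : 0 < δ) (hC0 : 0 < C0)
    (hK0 : 0 < K) (hKK : K ^ 2 = C0 * (100 : ℝ) ^ (δ / 24) * 4000 * (36 / δ) ^ 3)
    (N e J : ℕ) (hN : 3 ≤ N) (hMθ : ((2 : ℝ) ^ e) ≤ (N : ℝ) ^ θ)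
    (hJ : (J : ℝ) * N ≤ 4 * ((2 : ℝ) ^ e) ^ 2 * Real.log N)
    (G : ℕ → ℂ) (b : ℕ → ℂ) (hb1 : ∀ m, ‖b m‖ ≤ 1)
    (hbs : ∀ m, b m ≠ 0 → Squarefree m ∧ Odd m ∧ ∃ s : ℕ, s ∣ m ∧
      (N : ℝ) ^ (2 * θ - 1 + δ) ≤ s ∧ (s : ℝ) ≤ (N : ℝ) ^ (4 - 7 * θ - δ))
    (H : ∀ S : ℕ, 1 ≤ S → ∀ γ : ℕ → ℕ → ℂ, (∀ r s, ‖γ r s‖ ≤ 1) →
      (∀ r s, γ r s ≠ 0 → Squarefree (r * s) ∧ Odd (r * s) ∧
        r * s ∈ Ioc (2 ^ e) (2 ^ (e + 1))) →
      ‖∑ s ∈ Ico S (2 * S), ∑ r ∈ Icc 1 (2 ^ (e + 1)), γ r s * G (r * s)‖ ^ 2 ≤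
        C0 * (100 * Real.log N * (2 : ℝ) ^ e) ^ (δ / 24) * (100 * Real.log N) *
          (((2 : ℝ) ^ e) ^ 4 * J / S +
            ((2 : ℝ) ^ e) ^ (7 / 2 : ℝ) * (J : ℝ) ^ 2 * (S : ℝ) ^ (1 / 2 : ℝ))) :
    ‖∑ m ∈ Ioc (2 ^ e) (2 ^ (e + 1)), b m * G m‖ ≤
      84 / δ * K * (N : ℝ) ^ (-(δ / 12)) * ((2 : ℝ) ^ e) ^ 2 := by
  have hε : 0 < δ / 24 := by positivity
  have hN' : (3 : ℝ) ≤ N := by exact_mod_cast hN
  have hNpos : (0 : ℝ) < N := by linarith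
  have hN1 : (1 : ℝ) ≤ N := by linarith
  have hlog : 1 ≤ Real.log N := by
    rw [Real.le_log_iff_exp_le (by linarith)]
    have := Real.exp_one_lt_d9
    linarith
  obtain ⟨M, hMd⟩ : ∃ M : ℕ, M = 2 ^ e := ⟨_, rfl⟩
  have hMr : (M : ℝ) = (2 : ℝ) ^ e := by rw [hMd]; push_cast; rfl
  have hM2 : 2 ^ (e + 1) = 2 * M := by rw [hMd, pow_succ]; ring
  rw [← hMr] at hMθ hJ
  rw [hM2, ← hMd, ← hMr]
  rw [hM2, ← hMd, ← hMr] at H
  have hM1 : 1 ≤ M := by rw [hMd]; exact Nat.one_le_two_pow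
  have hM' : (1 : ℝ) ≤ M := by exact_mod_cast hM1
  have hM0 : (0 : ℝ) < M := by linarith
  have hMNr : (M : ℝ) ≤ N := by
    refine hMθ.trans ?_
    calc (N : ℝ) ^ θ ≤ (N : ℝ) ^ (1 : ℝ) :=
          Real.rpow_le_rpow_of_exponent_le hN1 (by linarith)
      _ = N := Real.rpow_one _
  have hMN : M ≤ N := by exact_mod_cast hMNr
  have hJle' : (J : ℝ) * ((1 : ℕ) * N) ≤ 4 * (M : ℝ) ^ 2 * Real.log N := by
    push_cast
    rw [one_mul]
    exact hJ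
  have hMM : (M : ℝ) ≤ 2 * ((1 : ℕ) : ℝ) * M := by push_cast; linarith
  classical
  obtain ⟨s1, hs1⟩ : ∃ s1 : ℕ → ℕ, ∀ m, b m ≠ 0 → s1 m ∣ m ∧
      (N : ℝ) ^ (2 * θ - 1 + δ) ≤ s1 m ∧ (s1 m : ℝ) ≤ (N : ℝ) ^ (4 - 7 * θ - δ) := by
    refine ⟨fun m => if h : b m ≠ 0 then (hbs m h).2.2.choose else 1, ?_⟩
    intro m h
    simp only [dif_pos h]
    exact (hbs m h).2.2.choose_spec
  have hI : 2 * M < 2 ^ (Nat.log 2 (2 * M + 1) + 1) :=
    lt_trans (Nat.lt_succ_self _) (Nat.lt_pow_succ_log_self (by norm_num) _)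
  rw [decomp M (2 * M) _ hI b s1 (fun m _ h => (hs1 m h).1) G]
  have hT : ∀ i ∈ range (Nat.log 2 (2 * M + 1) + 1),
      ‖∑ s ∈ Ico (2 ^ i) (2 * 2 ^ i), ∑ r ∈ Icc 1 (2 * M), gam M (2 * M) b s1 r s *
        G (r * s)‖ ≤
      K * (N : ℝ) ^ (-(δ / 6)) * (M : ℝ) ^ 2 := by
    intro i _
    have hS : 1 ≤ 2 ^ i := Nat.one_le_two_pow
    generalize 2 ^ i = S at hS
    by_cases hne : ∃ s ∈ Ico S (2 * S), ∃ r, gam M (2 * M) b s1 r s ≠ 0
    · obtain ⟨s, hs, r, hr⟩ := hne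
      have hs' := Finset.mem_Ico.1 hs
      obtain ⟨_, h2, h3⟩ := gam_ne M (2 * M) b s1 r s hr
      obtain ⟨_, h5, h6⟩ := hs1 _ h3
      rw [h2] at h5 h6
      have hsS : (s : ℝ) ≤ 2 * S := by exact_mod_cast hs'.2.le
      have hSs : (S : ℝ) ≤ s := by exact_mod_cast hs'.1
      have b1 := FX.TaskEF.bound1 (J := J) hN hlog (le_refl 1) hS hJle' hMθ
        (by push_cast; rw [one_mul]; exact h5.trans hsS)
      have b2 := FX.TaskEF.bound2 (J := J) (S := S) hN hlog (le_refl 1) (by linarith) hJle' hMθ hMM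
        (hSs.trans h6)
      have key := H S hS (gam M (2 * M) b s1) (gam_norm M (2 * M) b s1 hb1)
        (fun r s h => by
          obtain ⟨h7, h8, h9⟩ := gam_ne M (2 * M) b s1 r s h
          exact ⟨(hbs _ h9).1, (hbs _ h9).2.1, h7⟩)
      have hfinal : C0 * (100 * Real.log N * M) ^ (δ / 24) * (100 * Real.log N) *
          ((M : ℝ) ^ 4 * J / S + (M : ℝ) ^ (7 / 2 : ℝ) * (J : ℝ) ^ 2 * (S : ℝ) ^ (1 / 2 : ℝ)) ≤
          (K * (N : ℝ) ^ (-(δ / 6)) * (M : ℝ) ^ 2) ^ 2 := by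
        have c1 : (M : ℝ) ^ 4 * J / S + (M : ℝ) ^ (7 / 2 : ℝ) * (J : ℝ) ^ 2 *
            (S : ℝ) ^ (1 / 2 : ℝ) ≤ 40 * Real.log N ^ 2 * (N : ℝ) ^ (-(δ / 2)) * (M : ℝ) ^ 4 := by
          have d1 : (M : ℝ) ^ 4 * J / S ≤
              8 * Real.log N ^ 2 * (N : ℝ) ^ (-(δ / 2)) * (M : ℝ) ^ 4 := by
            have f1 : (N : ℝ) ^ (-δ) ≤ (N : ℝ) ^ (-(δ / 2)) :=
              Real.rpow_le_rpow_of_exponent_le hN1 (by linarith)
            have f2 : Real.log N ≤ Real.log N ^ 2 := by nlinarith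
            calc (M : ℝ) ^ 4 * J / S = (M : ℝ) ^ 4 * ((J : ℝ) / S) := by ring
              _ ≤ (M : ℝ) ^ 4 * (8 * Real.log N * (N : ℝ) ^ (-δ)) := by gcongr
              _ ≤ (M : ℝ) ^ 4 * (8 * Real.log N ^ 2 * (N : ℝ) ^ (-(δ / 2))) := by gcongr
              _ = _ := by ring
          have d2 : (M : ℝ) ^ (7 / 2 : ℝ) * (J : ℝ) ^ 2 * (S : ℝ) ^ (1 / 2 : ℝ) ≤
              32 * Real.log N ^ 2 * (N : ℝ) ^ (-(δ / 2)) * (M : ℝ) ^ 4 := by
            have f1 : (M : ℝ) ^ (7 / 2 : ℝ) * Real.sqrt M = (M : ℝ) ^ 4 := by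
              rw [Real.sqrt_eq_rpow, ← Real.rpow_add hM0, ← Real.rpow_natCast (M : ℝ) 4]
              congr 1
              norm_num
            rw [← Real.sqrt_eq_rpow]
            calc (M : ℝ) ^ (7 / 2 : ℝ) * (J : ℝ) ^ 2 * Real.sqrt S =
                (M : ℝ) ^ (7 / 2 : ℝ) * ((J : ℝ) ^ 2 * Real.sqrt S) := by ring
              _ ≤ (M : ℝ) ^ (7 / 2 : ℝ) *
                  (32 * Real.log N ^ 2 * (N : ℝ) ^ (-(δ / 2)) * Real.sqrt M) := by gcongr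
              _ = 32 * Real.log N ^ 2 * (N : ℝ) ^ (-(δ / 2)) *
                  ((M : ℝ) ^ (7 / 2 : ℝ) * Real.sqrt M) := by ring
              _ = _ := by rw [f1]
          calc _ ≤ 8 * Real.log N ^ 2 * (N : ℝ) ^ (-(δ / 2)) * (M : ℝ) ^ 4 +
                32 * Real.log N ^ 2 * (N : ℝ) ^ (-(δ / 2)) * (M : ℝ) ^ 4 := add_le_add d1 d2
            _ = _ := by ring
        have c2 : (100 * Real.log N * M) ^ (δ / 24) ≤
            (100 : ℝ) ^ (δ / 24) * (N : ℝ) ^ (δ / 12) := by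
          have f1 : Real.log N ≤ N := (Real.log_le_sub_one_of_pos hNpos).trans (by linarith)
          calc (100 * Real.log N * M) ^ (δ / 24) ≤ (100 * ((N : ℝ) ^ (2 : ℝ))) ^ (δ / 24) := by
                apply Real.rpow_le_rpow (by positivity) _ hε.le
                rw [Real.rpow_two]
                calc 100 * Real.log N * M ≤ 100 * N * N := by gcongr
                  _ = _ := by ring
            _ = (100 : ℝ) ^ (δ / 24) * (N : ℝ) ^ (δ / 12) := by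
                rw [Real.mul_rpow (by norm_num) (by positivity), ← Real.rpow_mul hNpos.le]
                congr 2
                ring
        have c3 : Real.log N ^ 3 ≤ (36 / δ) ^ 3 * (N : ℝ) ^ (δ / 12) := by
          have f1 : Real.log N ≤ (N : ℝ) ^ (δ / 36) / (δ / 36) :=
            Real.log_le_rpow_div hNpos.le (by positivity)
          calc Real.log N ^ 3 ≤ ((N : ℝ) ^ (δ / 36) / (δ / 36)) ^ 3 :=
                pow_le_pow_left₀ (by positivity) f1 3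
            _ = (36 / δ) ^ 3 * ((N : ℝ) ^ (δ / 36)) ^ 3 := by
                field_simp
            _ = (36 / δ) ^ 3 * (N : ℝ) ^ (δ / 12) := by
                rw [← Real.rpow_mul_natCast hNpos.le]
                congr 2
                push_cast
                ring
        have c4 : (N : ℝ) ^ (δ / 12) * (N : ℝ) ^ (δ / 12) * (N : ℝ) ^ (-(δ / 2)) =
            ((N : ℝ) ^ (-(δ / 6))) ^ 2 := by
          rw [← Real.rpow_add hNpos, ← Real.rpow_add hNpos, ← Real.rpow_mul_natCast hNpos.le]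
          congr 1
          push_cast
          ring
        calc C0 * (100 * Real.log N * M) ^ (δ / 24) * (100 * Real.log N) * _
            ≤ C0 * ((100 : ℝ) ^ (δ / 24) * (N : ℝ) ^ (δ / 12)) * (100 * Real.log N) *
              (40 * Real.log N ^ 2 * (N : ℝ) ^ (-(δ / 2)) * (M : ℝ) ^ 4) := by gcongr
          _ = C0 * (100 : ℝ) ^ (δ / 24) * 4000 * (Real.log N ^ 3) * ((N : ℝ) ^ (δ / 12) *
              (N : ℝ) ^ (-(δ / 2)) * (M : ℝ) ^ 4) := by ring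
          _ ≤ C0 * (100 : ℝ) ^ (δ / 24) * 4000 * ((36 / δ) ^ 3 * (N : ℝ) ^ (δ / 12)) *
              ((N : ℝ) ^ (δ / 12) * (N : ℝ) ^ (-(δ / 2)) * (M : ℝ) ^ 4) := by gcongr
          _ = (C0 * (100 : ℝ) ^ (δ / 24) * 4000 * (36 / δ) ^ 3) *
              ((N : ℝ) ^ (δ / 12) * (N : ℝ) ^ (δ / 12) * (N : ℝ) ^ (-(δ / 2))) *
                (M : ℝ) ^ 4 := by ring
          _ = _ := by rw [c4, ← hKK]; ring
      exact (pow_le_pow_iff_left₀ (norm_nonneg _) (by positivity) (by norm_num)).1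
        (key.trans hfinal)
    · push Not at hne
      rw [Finset.sum_eq_zero fun s hs => Finset.sum_eq_zero fun r _ => by
        rw [hne s hs r, zero_mul], norm_zero]
      positivity
  refine (norm_sum_le _ _).trans ((Finset.sum_le_sum hT).trans ?_)
  rw [Finset.sum_const, nsmul_eq_mul, Finset.card_range]
  have f1 : Real.log N ≤ (N : ℝ) ^ (δ / 12) / (δ / 12) :=
    Real.log_le_rpow_div hNpos.le (by positivity)
  have f2 := FX.TaskEF.range_bd hN hMN hlog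
  have f3 : (N : ℝ) ^ (δ / 12) * (N : ℝ) ^ (-(δ / 6)) = (N : ℝ) ^ (-(δ / 12)) := by
    rw [← Real.rpow_add hNpos]
    congr 1
    ring
  calc ((Nat.log 2 (2 * M + 1) + 1 : ℕ) : ℝ) * (K * (N : ℝ) ^ (-(δ / 6)) * (M : ℝ) ^ 2)
      ≤ (7 * Real.log N) * (K * (N : ℝ) ^ (-(δ / 6)) * (M : ℝ) ^ 2) := by gcongr
    _ ≤ (7 * ((N : ℝ) ^ (δ / 12) / (δ / 12))) *
        (K * (N : ℝ) ^ (-(δ / 6)) * (M : ℝ) ^ 2) := by gcongr
    _ = 84 / δ * K * ((N : ℝ) ^ (δ / 12) * (N : ℝ) ^ (-(δ / 6))) * (M : ℝ) ^ 2 := by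
      field_simp
      ring
    _ = _ := by rw [f3]

end TaskBCF

open TaskBCF

/-- BCF: one box, fixed classes modulo `q` -/
theorem BCF (hWU : St_WU) (hPW : BX.St_PW) : St_BCF := by
  intro θ δ hθ1 hθ2 hδ
  have hε : 0 < δ / 24 := by positivity
  obtain ⟨C0, hC0, H⟩ := hWU (δ / 24) hε
  have hK2 : 0 < C0 * (100 : ℝ) ^ (δ / 24) * 4000 * (36 / δ) ^ 3 := by positivity
  obtain ⟨K, hK0, hKK⟩ : ∃ K : ℝ, 0 < K ∧
      K ^ 2 = C0 * (100 : ℝ) ^ (δ / 24) * 4000 * (36 / δ) ^ 3 :=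
    ⟨Real.sqrt _, Real.sqrt_pos.2 hK2, Real.sq_sqrt hK2.le⟩
  refine ⟨δ / 12, 84 / δ * K, by positivity, by positivity, ?_⟩
  intro N q i k hN hq hqo hqs hi hk a a' σ ha ha' haa hσ c c' hc hc' hf hf' r r' hr hr'
  set J := JB N i k with hJdef
  have hN' : (3 : ℝ) ≤ N := by exact_mod_cast hN
  have hNpos : (0 : ℝ) < N := by linarith
  have hN1 : (1 : ℝ) ≤ N := by linarith
  have hlog : 1 ≤ Real.log N := by
    rw [Real.le_log_iff_exp_le (by linarith)]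
    have := Real.exp_one_lt_d9
    linarith
  obtain ⟨P, hP⟩ : ∃ P : ℝ, P = (2 : ℝ) ^ (i + k) := ⟨_, rfl⟩
  obtain ⟨M, hM⟩ : ∃ M : ℝ, M = (2 : ℝ) ^ max i k := ⟨_, rfl⟩
  obtain ⟨L, hL⟩ : ∃ L : ℝ, L = (2 : ℝ) ^ (max i k - min i k) := ⟨_, rfl⟩
  have hP1 : 1 ≤ P := by rw [hP]; exact one_le_pow₀ (by norm_num)
  have hM1 : 1 ≤ M := by rw [hM]; exact one_le_pow₀ (by norm_num)
  have hL1 : 1 ≤ L := by rw [hL]; exact one_le_pow₀ (by norm_num)
  have hP0 : 0 < P := by linarith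
  have hM0 : 0 < M := by linarith
  have hML : M ^ 2 = P * L := by
    rw [hM, hP, hL, ← pow_mul, ← pow_add]
    congr 1
    have h1 : max i k + min i k = i + k := max_add_min i k
    have h2 : min i k ≤ max i k := min_le_max
    omega
  have hPM : P ≤ M ^ 2 := by
    rw [hML]
    nlinarith
  have hMθ : M ≤ (N : ℝ) ^ θ := by
    rw [hM]
    rcases max_choice i k with h | h
    · rw [h]; exact hi
    · rw [h]; exact hk
  have hJle : (J : ℝ) * N ≤ 4 * P * Real.log N := by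
    have h1 : (J : ℝ) ≤ 4 * P * Real.log N / N := by
      rw [hJdef, hP]
      exact Nat.floor_le (by positivity)
    rwa [le_div_iff₀ hNpos] at h1
  have hJM : (J : ℝ) * N ≤ 4 * M ^ 2 * Real.log N := hJle.trans (by gcongr)
  rw [← hL]
  -- no frequency
  rcases Nat.eq_zero_or_pos J with hJ0 | hJpos
  · rw [hJ0]
    simp only [zero_lt_one, Finset.Icc_eq_empty_of_lt, Finset.sum_empty, norm_zero]
    positivity
  have hσ1 : |(σ : ℝ)| = 1 := by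
    rcases hσ with h | h <;> rw [h] <;> norm_num
  obtain ⟨ω, hω⟩ : ∃ ω : ℕ → ℂ, ω = fun j : ℕ => kf (-(σ * (j : ℤ) * a)) ((r * r' : ℕ) : ℤ) q :=
    ⟨_, rfl⟩
  have hωn : ∀ j, ‖ω j‖ ≤ 1 := by
    intro j
    rw [hω]
    exact (norm_kf _ _ _).le
  have hW : ∀ j : ℕ, WeiP ((2 : ℝ) ^ (i + k)) (100 * Real.log N)
      (psB N J a ((2 : ℝ) ^ (i + k)) σ ω j) := by
    intro j
    rw [← hP]
    exact hPW N J hN a ha P hP1 σ hσ ω hωn hJle j
  have hb : |((σ * (a' - a) : ℤ) : ℝ)| * J ≤ 100 * Real.log N * (2 : ℝ) ^ (i + k) := by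
    rw [← hP]
    push_cast
    rw [abs_mul, hσ1, one_mul]
    have h1 : |(a' : ℝ) - a| ≤ 2 * N := by
      have := abs_sub (a' : ℝ) (a : ℝ)
      linarith
    calc |(a' : ℝ) - a| * J ≤ (2 * N) * J := by gcongr
      _ = 2 * ((J : ℝ) * N) := by ring
      _ ≤ 2 * (4 * P * Real.log N) := by linarith
      _ ≤ _ := by
        have : 0 ≤ P * Real.log N := by positivity
        nlinarith
  have hσk : σ * (a' - a) ≠ 0 := by
    apply mul_ne_zero
    · rcases hσ with h | h <;> rw [h] <;> norm_num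
    · exact sub_ne_zero.2 haa.symm
  rw [TaskBC.sum_eq N q i k J hq a a' σ c c' hc hc' r r' hr hr', norm_mul, Complex.norm_real,
    Real.norm_eq_abs, abs_of_nonneg (by positivity)]
  -- coefficients
  obtain ⟨α, hα⟩ : ∃ α : ℕ → ℂ, α = fun m => if q ∣ m then (c (m / q) : ℂ) else 0 := ⟨_, rfl⟩
  obtain ⟨β, hβ⟩ : ∃ β : ℕ → ℂ, β = fun n => (c' n : ℂ) := ⟨_, rfl⟩
  have hα1 : ∀ m, ‖α m‖ ≤ 1 := by
    intro m
    rw [hα]
    show ‖(if q ∣ m then (c (m / q) : ℂ) else 0)‖ ≤ 1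
    split_ifs
    · rw [Complex.norm_real]; exact hc.bd _
    · simp
  have hβ1 : ∀ n, ‖β n‖ ≤ 1 := by
    intro n
    rw [hβ]
    show ‖(c' n : ℂ)‖ ≤ 1
    rw [Complex.norm_real]; exact hc'.bd _
  have hαs : ∀ m, α m ≠ 0 → Squarefree m ∧ Odd m ∧ ∃ s : ℕ, s ∣ m ∧
      (N : ℝ) ^ (2 * θ - 1 + δ) ≤ s ∧ (s : ℝ) ≤ (N : ℝ) ^ (4 - 7 * θ - δ) := by
    intro m hm
    have hqm : q ∣ m := by
      by_contra h
      exact hm (by rw [hα]; exact if_neg h)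
    have hcm : c (m / q) ≠ 0 := by
      intro h
      apply hm
      rw [hα]
      show (if q ∣ m then (c (m / q) : ℂ) else 0) = 0
      rw [if_pos hqm, h]
      simp
    have h2 := hc.cop _ hcm
    have h3 : Odd (m / q) := Nat.coprime_two_right.1 (Nat.Coprime.coprime_mul_right_right h2)
    have h5 : Nat.Coprime q (m / q) := (Nat.Coprime.coprime_mul_left_right h2).symm
    have h4 : m = q * (m / q) := (Nat.mul_div_cancel' hqm).symm
    obtain ⟨hsq, s, hs1, hs2, hs3⟩ := hf _ hcm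
    refine ⟨?_, ?_, s, ?_, hs2, hs3⟩
    · rw [h4]
      exact (Nat.squarefree_mul h5).2 ⟨hqs, hsq⟩
    · rw [h4]
      exact hqo.mul h3
    · rw [h4]
      exact hs1.mul_left q
  have hβs : ∀ n, β n ≠ 0 → Squarefree n ∧ Odd n ∧ ∃ s : ℕ, s ∣ n ∧
      (N : ℝ) ^ (2 * θ - 1 + δ) ≤ s ∧ (s : ℝ) ≤ (N : ℝ) ^ (4 - 7 * θ - δ) := by
    intro n hn
    have hcn : c' n ≠ 0 := by
      intro h
      apply hn
      rw [hβ]
      show (c' n : ℂ) = 0
      rw [h]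
      simp
    have h3 : Odd n :=
      Nat.coprime_two_right.1 (Nat.Coprime.coprime_mul_right_right (hc'.cop n hcn))
    exact ⟨(hf' n hcn).1, h3, (hf' n hcn).2⟩
  have hS : ‖∑ m ∈ Ioc (2 ^ i) (2 ^ (i + 1)),
        ∑ n ∈ (Ioc (2 ^ k) (2 ^ (k + 1))).filter (fun n => Nat.Coprime m n),
          α m * β n * FF (psB N J a ((2 : ℝ) ^ (i + k)) σ ω) (σ * (a' - a)) J n m‖ ≤
      84 / δ * K * (N : ℝ) ^ (-(δ / 12)) * M ^ 2 := by
    rcases le_or_gt k i with hki | hik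
    · have hmax : max i k = i := max_eq_left hki
      rw [hM, hmax] at hMθ hJM ⊢
      have e1 : ∑ m ∈ Ioc (2 ^ i) (2 ^ (i + 1)),
        ∑ n ∈ (Ioc (2 ^ k) (2 ^ (k + 1))).filter (fun n => Nat.Coprime m n),
          α m * β n * FF (psB N J a ((2 : ℝ) ^ (i + k)) σ ω) (σ * (a' - a)) J n m =
          ∑ m ∈ Ioc (2 ^ i) (2 ^ (i + 1)), α m *
            ∑ n ∈ (Ioc (2 ^ k) (2 ^ (k + 1))).filter (fun n => Nat.Coprime m n),
              β n * FF (psB N J a ((2 : ℝ) ^ (i + k)) σ ω) (σ * (a' - a)) J n m := by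
        refine Finset.sum_congr rfl fun m _ => ?_
        rw [Finset.mul_sum]
        exact Finset.sum_congr rfl fun n _ => by ring
      rw [e1]
      refine core hθ1 hθ2 hδ hC0 hK0 hKK N i J hN hMθ hJM
        (fun m => ∑ n ∈ (Ioc (2 ^ k) (2 ^ (k + 1))).filter (fun n => Nat.Coprime m n),
              β n * FF (psB N J a ((2 : ℝ) ^ (i + k)) σ ω) (σ * (a' - a)) J n m) α hα1 hαs ?_
      intro S hS γ hγ1 hγ2
      have key := (H i k S J hS hJpos (100 * Real.log N) (by linarith)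
        (psB N J a ((2 : ℝ) ^ (i + k)) σ ω) hW (σ * (a' - a)) hσk hb γ β hγ1 hβ1
        (fun n hn => (hβs n hn).2.1)).1 hki hγ2
      refine le_trans (le_of_eq ?_) key
      congr 2
      refine Finset.sum_congr rfl fun s _ => Finset.sum_congr rfl fun r _ => ?_
      show γ r s * ∑ n ∈ (Ioc (2 ^ k) (2 ^ (k + 1))).filter (fun n => Nat.Coprime (r * s) n),
        β n * FF (psB N J a ((2 : ℝ) ^ (i + k)) σ ω) (σ * (a' - a)) J n (r * s) = _
      rw [Finset.mul_sum]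
      exact Finset.sum_congr rfl fun n _ => by ring
    · have hmax : max i k = k := max_eq_right hik.le
      rw [hM, hmax] at hMθ hJM ⊢
      have e1 : ∑ m ∈ Ioc (2 ^ i) (2 ^ (i + 1)),
        ∑ n ∈ (Ioc (2 ^ k) (2 ^ (k + 1))).filter (fun n => Nat.Coprime m n),
          α m * β n * FF (psB N J a ((2 : ℝ) ^ (i + k)) σ ω) (σ * (a' - a)) J n m =
          ∑ n ∈ Ioc (2 ^ k) (2 ^ (k + 1)), β n *
            ∑ m ∈ (Ioc (2 ^ i) (2 ^ (i + 1))).filter (fun m => Nat.Coprime n m),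
              α m * FF (psB N J a ((2 : ℝ) ^ (i + k)) σ ω) (σ * (a' - a)) J n m := by
        have e2 : ∑ m ∈ Ioc (2 ^ i) (2 ^ (i + 1)),
            ∑ n ∈ (Ioc (2 ^ k) (2 ^ (k + 1))).filter (fun n => Nat.Coprime m n),
              α m * β n * FF (psB N J a ((2 : ℝ) ^ (i + k)) σ ω) (σ * (a' - a)) J n m =
            ∑ m ∈ Ioc (2 ^ i) (2 ^ (i + 1)), ∑ n ∈ (Ioc (2 ^ k) (2 ^ (k + 1))),
              if Nat.Coprime m n then
              α m * β n * FF (psB N J a ((2 : ℝ) ^ (i + k)) σ ω) (σ * (a' - a)) J n m else 0 :=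
          Finset.sum_congr rfl fun m _ => Finset.sum_filter _ _
        rw [e2, Finset.sum_comm]
        refine Finset.sum_congr rfl fun n _ => ?_
        rw [Finset.mul_sum, Finset.sum_filter]
        refine Finset.sum_congr rfl fun m _ => ?_
        by_cases hmn : Nat.Coprime m n
        · rw [if_pos hmn, if_pos hmn.symm]
          ring
        · rw [if_neg hmn, if_neg (fun h => hmn (Nat.Coprime.symm h))]
      rw [e1]
      refine core hθ1 hθ2 hδ hC0 hK0 hKK N k J hN hMθ hJM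
        (fun n => ∑ m ∈ (Ioc (2 ^ i) (2 ^ (i + 1))).filter (fun m => Nat.Coprime n m),
              α m * FF (psB N J a ((2 : ℝ) ^ (i + k)) σ ω) (σ * (a' - a)) J n m) β hβ1 hβs ?_
      intro S hS γ hγ1 hγ2
      have key := (H i k S J hS hJpos (100 * Real.log N) (by linarith)
        (psB N J a ((2 : ℝ) ^ (i + k)) σ ω) hW (σ * (a' - a)) hσk hb γ α hγ1 hα1
        (fun n hn => (hαs n hn).2.1)).2 hik.le hγ2
      refine le_trans (le_of_eq ?_) key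
      congr 2
      refine Finset.sum_congr rfl fun s _ => Finset.sum_congr rfl fun r _ => ?_
      show γ r s * ∑ m ∈ (Ioc (2 ^ i) (2 ^ (i + 1))).filter (fun m => Nat.Coprime (r * s) m),
        α m * FF (psB N J a ((2 : ℝ) ^ (i + k)) σ ω) (σ * (a' - a)) J (r * s) m = _
      rw [Finset.mul_sum]
      exact Finset.sum_congr rfl fun n _ => by ring
  rw [hα, hβ, hω] at hS
  rw [← hP]
  rw [← hP] at hS
  calc (N : ℝ) / P * _
      ≤ (N : ℝ) / P * (84 / δ * K * (N : ℝ) ^ (-(δ / 12)) * M ^ 2) :=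
        mul_le_mul_of_nonneg_left hS (by positivity)
    _ = 84 / δ * K * L * ((N : ℝ) * (N : ℝ) ^ (-(δ / 12))) := by
        rw [hML]
        field_simp
    _ = _ := by
        have : (N : ℝ) * (N : ℝ) ^ (-(δ / 12)) = (N : ℝ) ^ (1 - δ / 12) := by
          rw [sub_eq_add_neg, Real.rpow_add hNpos, Real.rpow_one]
        rw [this]

end Pool.Agent.W324.DC
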